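import Mathlib
import Pool.Agent.TH411.TLC.Core

/-!
# The `t`-adic Littlewood conjecture fails over every finite field of odd order

For a nonsquare `c` of a field `F` let `Θ = Σ_{n ≥ 1} a_n t^{-n}` be the Laurent series with
`(t^2 - c) Θ(t) = t^2 Θ(t^2) + t`, i.e. `a_{2m+1} = c^m`, `a_{2m+2} = c a_{2m} + a_{m+1}` with
`a_0 = 0`.  Then `|N| |N|_t |⟨N Θ⟩| ≥ q^{-2}` for every nonzero polynomial `N`: some coefficient
of `N Θ` at `t^{-j}`, `1 ≤ j ≤ deg N - v_t(N) + 2`, is not zero.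
-/

set_option autoImplicit false

namespace Pool.Agent.Results.MP_59ccbf_nt.OddCharacteristic

open Polynomial

theorem result :
    (∀ (F : Type) [Field F] (c : F), ¬ IsSquare c →
      ∃ a : ℕ → F, a 0 = 0 ∧ (∀ m, a (2 * m + 1) = c ^ m) ∧
        (∀ m, a (2 * m + 2) = c * a (2 * m) + a (m + 1)) ∧
        ∀ N : Polynomial F, N ≠ 0 →
          ∃ j : ℕ, 1 ≤ j ∧ j < N.natDegree - N.natTrailingDegree + 3 ∧
            ∑ i ∈ Finset.range (N.natDegree + 1), N.coeff i * a (i + j) ≠ 0) ∧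
    ∀ (F : Type) [Field F] [Fintype F], Odd (Fintype.card F) →
      ¬ (∀ a : ℕ → F, ∀ k : ℕ, ∃ N : Polynomial F, N ≠ 0 ∧
          ∀ j : ℕ, 1 ≤ j → j < N.natDegree - N.natTrailingDegree + k →
            ∑ i ∈ Finset.range (N.natDegree + 1), N.coeff i * a (i + j) = 0) := by
  have main : ∀ (F : Type) [Field F] (c : F), ¬ IsSquare c →
      ∃ a : ℕ → F, a 0 = 0 ∧ (∀ m, a (2 * m + 1) = c ^ m) ∧
        (∀ m, a (2 * m + 2) = c * a (2 * m) + a (m + 1)) ∧
        ∀ N : Polynomial F, N ≠ 0 →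
          ∃ j : ℕ, 1 ≤ j ∧ j < N.natDegree - N.natTrailingDegree + 3 ∧
            ∑ i ∈ Finset.range (N.natDegree + 1), N.coeff i * a (i + j) ≠ 0 := by
    intro F _ c hc
    obtain ⟨a, h0, h1, h2⟩ := Pool.Agent.TH411.TLC.exists_seq c
    exact ⟨a, h0, h1, h2, fun N hN => Pool.Agent.TH411.TLC.bound hc h1 h2 N hN⟩
  refine ⟨main, ?_⟩
  intro F _ _ hodd hall
  have hchar : ringChar F ≠ 2 := by
    intro h2
    have := (FiniteField.even_card_iff_char_two (F := F)).1 h2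
    rw [Nat.odd_iff] at hodd
    omega
  obtain ⟨c, hc⟩ := FiniteField.exists_nonsquare (F := F) hchar
  obtain ⟨a, -, -, -, hN⟩ := main F c hc
  obtain ⟨N, hN0, hsmall⟩ := hall a 3
  obtain ⟨j, hj1, hj2, hj3⟩ := hN N hN0
  exact hj3 (hsmall j hj1 hj2)

end Pool.Agent.Results.MP_59ccbf_nt.OddCharacteristic
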